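import Pool.Agent.Q226.FL2.One

/-! # The literals with the faults at the given tags -/

set_option autoImplicit false

open Finset

namespace Pool.Agent.Q226.DSU

open Pool.Agent.Q226.FL2 Pool.Agent.Q226.FLT

lemma rl1_eq {X : Type} {K : ℕ} (t : X → Fin K) (G : X → Bool) :
    rl1 t G = literals (host t G) {p | p.2 = t p.1} := by
  funext ⟨p, b⟩
  unfold rl1 literals host
  rcases b with _ | _
  · by_cases h : p.2 = t p.1 <;> simp [h]
  · simp

lemma rl1_mono {X : Type} {K : ℕ} (t : X → Fin K) {G G' : X → Bool} (h : G ≤ G') :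
    rl1 t G ≤ rl1 t G' := by
  rintro ⟨p, b⟩
  unfold rl1
  rcases b with _ | _
  · simp
  · simp only [if_true]
    unfold host
    exact Pool.Agent.Q226.FL2.and_le (h p.1) le_rfl

lemma host_one {X : Type} {K : ℕ} (t : X → Fin K) (G : X → Bool) (e : X) (k k' : Fin K)
    (h : host t G (e, k) = true) (h' : host t G (e, k') = true) : k = k' := by
  unfold host at h h'
  simp only [Bool.and_eq_true, decide_eq_true_eq] at h h'
  rw [h.2, h'.2]

lemma host_ex {X : Type} {K : ℕ} (t : X → Fin K) (G : X → Bool) (e : X) :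
    (∃ k, host t G (e, k) = true) ↔ G e = true := by
  unfold host
  constructor
  · rintro ⟨k, hk⟩
    simp only [Bool.and_eq_true] at hk
    exact hk.1
  · intro h
    exact ⟨t e, by simp [h]⟩

end Pool.Agent.Q226.DSU
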